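import Mathlib

/-!
MP_ca6fba_co.  A hypergraph on eight vertices that is not 2-colourable, although Waiter wins the
Client-Waiter game on it.
-/

set_option autoImplicit false

namespace Pool.Agent.Results.MP_ca6fba_co.EightVertices

open Finset

/-- `WaiterWinsFrom E U C`: Waiter has a winning strategy in the Client-Waiter game on the
hypergraph with edge set `E` from the position in which `U` is the set of unclaimed vertices and
`C` is the set of vertices claimed by Client.  In each round Waiter offers two distinct unclaimed
vertices `a`, `b`, Client claims one of them and Waiter claims the other; a single leftover vertex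
is claimed by Client; Waiter wins if at the end no edge lies inside Client's set. -/
inductive WaiterWinsFrom {V : Type} [DecidableEq V] (E : Finset (Finset V)) :
    Finset V → Finset V → Prop
  | finished (C : Finset V) : (∀ e ∈ E, ¬ e ⊆ C) → WaiterWinsFrom E ∅ C
  | leftover (v : V) (C : Finset V) : (∀ e ∈ E, ¬ e ⊆ insert v C) → WaiterWinsFrom E {v} C
  | offer (U C : Finset V) (a b : V) : a ∈ U → b ∈ U → a ≠ b →
      WaiterWinsFrom E (U \ {a, b}) (insert a C) → WaiterWinsFrom E (U \ {a, b}) (insert b C) →
      WaiterWinsFrom E U C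

/-- Waiter wins the Client-Waiter game on the hypergraph with vertex set `V` and edge set `E`. -/
def WaiterWins {V : Type} [Fintype V] [DecidableEq V] (E : Finset (Finset V)) : Prop :=
  WaiterWinsFrom E univ ∅

/-- The hypergraph with edge set `E` is 2-colourable: no edge is monochromatic. -/
def TwoColourable {V : Type} (E : Finset (Finset V)) : Prop :=
  ∃ c : V → Fin 2, ∀ e ∈ E, ∃ x ∈ e, ∃ y ∈ e, c x ≠ c y

lemma finish {V : Type} [DecidableEq V] {E : Finset (Finset V)} {U C : Finset V} (hU : U = ∅)
    (h : ∀ e ∈ E, ¬ e ⊆ C) : WaiterWinsFrom E U C := by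
  subst hU
  exact WaiterWinsFrom.finished C h

/-- The sixteen sets that Client can end up with. -/
def fam : Finset (Finset (Fin 8)) :=
  {{0, 1, 2, 6}, {0, 1, 3, 6}, {0, 2, 4, 6}, {0, 3, 4, 6}, {1, 2, 5, 6}, {1, 4, 5, 6},
    {2, 3, 5, 6}, {3, 4, 5, 6}, {0, 1, 3, 7}, {0, 3, 5, 7}, {1, 2, 3, 7}, {2, 3, 5, 7},
    {0, 2, 4, 7}, {0, 4, 5, 7}, {1, 2, 4, 7}, {1, 4, 5, 7}}

/-- The edges: all sets of four vertices not in `fam`. -/
def edges : Finset (Finset (Fin 8)) :=
  (powersetCard 4 univ).filter (fun e => e ∉ fam)

lemma mem_edges {e : Finset (Fin 8)} : e ∈ edges ↔ e.card = 4 ∧ e ∉ fam := by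
  unfold edges
  rw [mem_filter, mem_powersetCard]
  simp

lemma leaf {C : Finset (Fin 8)} (hC : C ∈ fam) : ∀ e ∈ edges, ¬ e ⊆ C := by
  intro e he hs
  rw [mem_edges] at he
  have hcard : ∀ C ∈ fam, C.card = 4 := by decide +kernel
  have h := eq_of_subset_of_card_le hs (by rw [hcard C hC, he.1])
  exact he.2 (h ▸ hC)

lemma five : ∀ A ∈ powersetCard 5 (univ : Finset (Fin 8)), ∃ x ∈ A, A.erase x ∉ fam := by
  decide +kernel

lemma compl_notMem : ∀ C ∈ fam, Cᶜ ∉ fam := by decide +kernel

lemma waiter_wins : WaiterWins edges := by
  unfold WaiterWins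
  refine .offer _ _ 6 7 (by decide) (by decide) (by decide) ?_ ?_
  · refine .offer _ _ 0 5 (by decide) (by decide) (by decide) ?_ ?_
    · refine .offer _ _ 1 4 (by decide) (by decide) (by decide) ?_ ?_
      · exact .offer _ _ 2 3 (by decide) (by decide) (by decide)
          (finish (by decide) (leaf (by decide))) (finish (by decide) (leaf (by decide)))
      · exact .offer _ _ 2 3 (by decide) (by decide) (by decide)
          (finish (by decide) (leaf (by decide))) (finish (by decide) (leaf (by decide)))
    · refine .offer _ _ 1 3 (by decide) (by decide) (by decide) ?_ ?_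
      · exact .offer _ _ 2 4 (by decide) (by decide) (by decide)
          (finish (by decide) (leaf (by decide))) (finish (by decide) (leaf (by decide)))
      · exact .offer _ _ 2 4 (by decide) (by decide) (by decide)
          (finish (by decide) (leaf (by decide))) (finish (by decide) (leaf (by decide)))
  · refine .offer _ _ 3 4 (by decide) (by decide) (by decide) ?_ ?_
    · refine .offer _ _ 0 2 (by decide) (by decide) (by decide) ?_ ?_
      · exact .offer _ _ 1 5 (by decide) (by decide) (by decide)
          (finish (by decide) (leaf (by decide))) (finish (by decide) (leaf (by decide)))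
      · exact .offer _ _ 1 5 (by decide) (by decide) (by decide)
          (finish (by decide) (leaf (by decide))) (finish (by decide) (leaf (by decide)))
    · refine .offer _ _ 0 1 (by decide) (by decide) (by decide) ?_ ?_
      · exact .offer _ _ 2 5 (by decide) (by decide) (by decide)
          (finish (by decide) (leaf (by decide))) (finish (by decide) (leaf (by decide)))
      · exact .offer _ _ 2 5 (by decide) (by decide) (by decide)
          (finish (by decide) (leaf (by decide))) (finish (by decide) (leaf (by decide)))

/-- a set without edges has at most four elements and, if it has four, lies in `fam` -/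
lemma no_edge {A : Finset (Fin 8)} (h : ∀ e ∈ edges, ¬ e ⊆ A) : A.card ≤ 4 := by
  by_contra hcon
  push Not at hcon
  obtain ⟨B, hB, hBc⟩ := exists_subset_card_eq (show 5 ≤ A.card by omega)
  obtain ⟨x, hx, hx2⟩ := five B (mem_powersetCard.2 ⟨subset_univ _, hBc⟩)
  refine h (B.erase x) (mem_edges.2 ⟨?_, hx2⟩) ((erase_subset _ _).trans hB)
  rw [card_erase_of_mem hx, hBc]

lemma not_two_colourable : ¬ TwoColourable edges := by
  rintro ⟨c, hc⟩
  have hA : ∀ i : Fin 2, ∀ e ∈ edges, ¬ e ⊆ univ.filter (fun v => c v = i) := by
    intro i e he hs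
    obtain ⟨x, hx, y, hy, hxy⟩ := hc e he
    have h1 := (mem_filter.1 (hs hx)).2
    have h2 := (mem_filter.1 (hs hy)).2
    exact hxy (h1.trans h2.symm)
  have h0 := no_edge (hA 0)
  have h1 := no_edge (hA 1)
  have hcompl : univ.filter (fun v => c v = 1) = (univ.filter (fun v => c v = 0))ᶜ := by
    ext v
    rw [mem_compl, mem_filter, mem_filter]
    simp only [mem_univ, true_and]
    have : ∀ i : Fin 2, i = 1 ↔ ¬ i = 0 := by decide
    exact this _
  rw [hcompl, card_compl, Fintype.card_fin] at h1
  have h4 : (univ.filter (fun v => c v = 0)).card = 4 := by omega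
  have h5 : univ.filter (fun v => c v = 0) ∈ fam := by
    by_contra hcon
    exact hA 0 _ (mem_edges.2 ⟨h4, hcon⟩) (Subset.refl _)
  have h6 : (univ.filter (fun v => c v = 0))ᶜ ∉ fam := compl_notMem _ h5
  refine hA 1 _ (mem_edges.2 ⟨?_, h6⟩) (by rw [hcompl])
  rw [card_compl, h4, Fintype.card_fin]

/-- Q1 is false: there is a hypergraph (with vertex set `Fin 8`) on which Waiter wins the
Client-Waiter game and which is not 2-colourable. -/
theorem result : ∃ E : Finset (Finset (Fin 8)), WaiterWins E ∧ ¬ TwoColourable E :=
  ⟨edges, waiter_wins, not_two_colourable⟩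

end Pool.Agent.Results.MP_ca6fba_co.EightVertices
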